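import Pool.Agent.MWLQ.StmtsB

/-!
# MWLQ, row GDA: both classes, the power of `x` with `y^n` in front of `z` (after MWLE.GDA of helper59)
-/

set_option autoImplicit false

namespace Pool.Agent.MWLQ.H35

open Pool.Agent.Helper14_MV Pool.Agent.MWLQ
open Pool.Agent.Helper2_MV (RR)
open Pool.Agent.MWK (pre)
open Pool.Agent.MWGN (nn Tau gh)
open Pool.Agent.MWGQ (pw Z Gn E0 A0 P0)
open Pool.Agent.MWLE (pin sep con tl tll Sg t1 Fc Fb Fy Fx Fu Fz rz sf k0)

theorem pw_succ (k : ℕ) (u : List ℕ) : pw (k + 1) u = u ++ pw k u := by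
  simp [pw, List.replicate_succ]

theorem flat_rep (k c : ℕ) (f : ℕ → List ℕ) : (List.replicate k c).flatMap f = pw k (f c) := by
  induction k with
  | zero => simp [pw]
  | succ k ih => rw [List.replicate_succ, List.flatMap_cons, ih, pw_succ]

theorem count_pw (k d : ℕ) (u : List ℕ) : (pw k u).count d = k * u.count d := by
  induction k with
  | zero => simp [pw]
  | succ k ih =>
    rw [pw_succ, List.count_append, ih, Nat.succ_mul]
    omega

theorem mem_pw {k d : ℕ} {u : List ℕ} (h : d ∈ pw k u) : d ∈ u := by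
  induction k with
  | zero => simp [pw] at h
  | succ k ih =>
    rw [pw_succ, List.mem_append] at h
    rcases h with h | h
    · exact h
    · exact ih h

theorem nx_eq (n m : ℕ) : ∃ R, Nx n m true = List.replicate (n + 1) (con (m + 1)) ++
    (List.replicate n 1 ++ (pin (m + 1) :: 1 :: pin (m + 2) :: R)) := by
  rcases m with _ | m
  · exact ⟨[], by simp [Nx, cp]⟩
  · refine ⟨List.replicate (n + 1) (con (m + 1 + 2)) ++ ((List.range m).flatMap
      (fun i => pin (m + 1 + 2 + (i + 1)) :: List.replicate (n + 1) (con (m + 1 + 2 + (i + 1)))) ++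
        [pin (2 * (m + 1) + 2)]), ?_⟩
    unfold Nx cp
    rw [List.range_succ_eq_map]
    simp [List.flatMap_map]

theorem count_two {A B : List ℕ} {c : ℕ} (h1 : c ∈ A) (h2 : c ∈ B) : 2 ≤ (A ++ B).count c := by
  have h3 := List.count_pos_iff.2 h1
  have h4 := List.count_pos_iff.2 h2
  rw [List.count_append]
  omega

/-- ROW GDA -/
theorem gda (_hTWC : TwcStmt) (hBLK : BlkStmt) (hCVB : CvbStmt) (hYPR : YprStmt) : GdaStmt := by
  intro n hn σ τ m hS d f p q hb hy c hc
  by_contra hcon
  have hc4 : ¬ c % 5 = 4 := fun h => hcon (Or.inl h)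
  have hc1 : c ≠ 1 := fun h => hcon (Or.inr (Or.inl h))
  have hcP : c ∉ p ++ (N0 n m).flatMap f := fun h => hcon (Or.inr (Or.inr h))
  obtain ⟨W, hW⟩ : ∃ W, W = p ++ ((wd n σ m d true).flatMap f ++ q) := ⟨_, rfl⟩
  rw [← hW] at hb hy
  have hF := hb.fc
  obtain ⟨B1, B2⟩ := hBLK n hn σ τ m hS d true f p q W hW hF
  have h0wb : 0 ∈ wb n m d true := by
    unfold wb
    simp
  have h0pin : ∀ j, (0 : ℕ) ≠ pin j := by
    intro j
    unfold pin
    omega
  have h1pin : ∀ j, (1 : ℕ) ≠ pin j := by
    intro j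
    unfold pin
    omega
  obtain ⟨P, hP⟩ : ∃ P, P = p ++ (N0 n m).flatMap f := ⟨_, rfl⟩
  rw [← hP] at hcP
  have hWP : W = P ++ ((if d then List.replicate (n + 1) 0 else [0]).flatMap f ++ ((Nx n m true).flatMap f ++ (f 0 ++
      ((tl σ).flatMap f ++ q)))) := by
    rw [hW, hP]
    unfold wd wb
    simp only [List.flatMap_append, List.append_assoc, List.flatMap_cons, List.flatMap_nil,
      List.nil_append]
  have hpP : ∀ x, x ∉ P → x ∉ p := by
    intro x hx hx'
    apply hx
    rw [hP]
    exact List.mem_append_left _ hx'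
  have hcW : c ∈ W := by
    rw [hWP]
    simp only [List.mem_append]
    right
    right
    right
    left
    exact hc
  -- `c = 0`
  have hc0 : c = 0 := by
    rcases hF.al c hcW with h | h | h | ⟨k, hk, h | h⟩
    · exact h
    · exact absurd h hc1
    · exact absurd h hc4
    · exfalso
      have h1 := (B2 c (hpP c hcP) (by
        rw [h, hF.pt k hk]) k hk).2 0 h0wb h0pin
      rw [h] at hc
      exact h1 hc
    · exfalso
      rw [h] at hc
      exact B1 0 h0wb k hk hc
  subst hc0
  have hB := B2 0 (hpP 0 hcP) (by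
    rw [hb.xt]
    have := hb.x2
    omega)
  have hB1 : ∀ k ≤ 2 * m + 2, (p ++ (wb n m d true).flatMap f).count (pin k) ≤ 1 :=
    fun k hk => (hB k hk).1
  have hB2 : ∀ a ∈ wb n m d true, (∀ j, a ≠ pin j) → ∀ k ≤ 2 * m + 2, pin k ∉ f a :=
    fun a ha hj k hk => (hB k hk).2 a ha hj
  have hnp : ∀ k, m + 1 ≤ k → k ≤ 2 * m + 2 → pin k ∉ P := by
    intro k hk1 hk2 hk
    have h1 : 0 ∈ pre W (pin (m + 1)) := List.count_pos_iff.1 hb.xp
    have h2 : 0 ∈ pre W (pin k) := by
      rcases Nat.lt_or_ge (m + 1) k with h | h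
      · exact MWK.pre_trans h1 (hF.po _ _ h hk2)
      · have e : k = m + 1 := by omega
        rw [e]
        exact h1
    rw [hWP, MWK.pre_append_mem hk] at h2
    exact hcP (MWK.mem_of_mem_pre h2)
  have hn1 : ∀ k ≤ 2 * m + 2, nn W 0 (pin k) ≤ 1 := by
    intro k hk
    rcases Nat.lt_or_ge k (2 * m + 2) with h | h
    · have h1 := MWK.count_pre_mono (hF.po k (2 * m + 2) h le_rfl) 0
      exact le_trans h1 hb.xl
    · have e : k = 2 * m + 2 := by omega
      rw [e]
      exact hb.xl
  cases d with
  | true =>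
    have h1 : W = (P ++ pw (n + 1) (f 0)) ++ ((Nx n m true).flatMap f ++ (f 0 ++
      ((tl σ).flatMap f ++ q))) := by
      rw [hWP, if_pos rfl, flat_rep]
      simp only [List.append_assoc]
    have h2 : pin (2 * m + 2) ∉ P ++ pw (n + 1) (f 0) := by
      have h3 := hnp (2 * m + 2) (by omega) le_rfl
      have h4 := hB2 0 h0wb h0pin (2 * m + 2) le_rfl
      rw [List.mem_append]
      rintro (h5 | h5)
      · exact h3 h5
      · exact h4 (mem_pw h5)
    have h3 := hn1 (2 * m + 2) le_rfl
    unfold nn at h3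
    rw [h1, MWK.pre_append h2, List.count_append, List.count_append, count_pw] at h3
    have h4 := List.count_pos_iff.2 hc
    nlinarith
  | false =>
    have h1 : W = P ++ (f 0 ++ ((Nx n m true).flatMap f ++ (f 0 ++ ((tl σ).flatMap f ++ q)))) := by
      rw [hWP]
      simp
    have hin : ∀ k, m + 1 ≤ k → k ≤ 2 * m + 2 → pin k ∈ (Nx n m true).flatMap f := by
      intro k hk1 hk2
      by_contra h
      have h2 : W = (P ++ (f 0 ++ ((Nx n m true).flatMap f ++ f 0))) ++
          ((tl σ).flatMap f ++ q) := by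
        rw [h1]
        simp only [List.append_assoc]
      have h3 : pin k ∉ P ++ (f 0 ++ ((Nx n m true).flatMap f ++ f 0)) := by
        have h4 := hnp k hk1 hk2
        have h5 := hB2 0 h0wb h0pin k hk2
        simp only [List.mem_append]
        tauto
      have h6 := hn1 k hk2
      unfold nn at h6
      rw [h2, MWK.pre_append h3, List.count_append, List.count_append] at h6
      have h4 := count_two hc (List.mem_append_right ((Nx n m true).flatMap f) hc)
      omega
    have hcv := hCVB n hn σ τ m hS false true f p q W hW hF hB1 hB2 (m + 1) le_rfl (by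
      intro i hi
      rw [← hP]
      exact hnp _ (by omega) (by omega)) (by
      intro i hi
      exact hin _ (by omega) (by omega))
    have hc1 : pin (m + 1) ∈ f (pin (m + 1)) := hcv 0 (by omega)
    have hc2 : pin (m + 2) ∈ f (pin (m + 2)) := hcv 1 (by omega)
    obtain ⟨R, hR⟩ := nx_eq n m
    obtain ⟨Z, hZ⟩ : ∃ Z, Z = P ++ (f 0 ++ (pw (n + 1) (f (con (m + 1))) ++ pw n (f 1))) :=
      ⟨_, rfl⟩
    have hWZ : W = Z ++ (f (pin (m + 1)) ++ (f 1 ++ (f (pin (m + 2)) ++ (R.flatMap f ++
        (f 0 ++ ((tl σ).flatMap f ++ q)))))) := by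
      rw [h1, hR, hZ]
      simp only [List.flatMap_append, List.flatMap_cons, List.append_assoc, flat_rep]
    have hZ2 : p ++ (wb n m false true).flatMap f = Z ++ (f (pin (m + 1)) ++ (f 1 ++
        (f (pin (m + 2)) ++ (R.flatMap f ++ f 0)))) := by
      rw [hZ, hP]
      unfold wb
      rw [hR]
      simp [List.flatMap_append, flat_rep]
    have hk1 := hB1 (m + 1) (by omega)
    have hk2 := hB1 (m + 2) (by omega)
    rw [hZ2] at hk1 hk2
    simp only [List.count_append] at hk1 hk2
    have g1 := List.count_pos_iff.2 hc1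
    have g2 := List.count_pos_iff.2 hc2
    have k1 : pin (m + 1) ∉ Z := by
      rw [← List.count_eq_zero]
      omega
    have k2 : pin (m + 2) ∉ Z := by
      rw [← List.count_eq_zero]
      omega
    have k3 : pin (m + 2) ∉ f (pin (m + 1)) := by
      rw [← List.count_eq_zero]
      omega
    have k4 : pin (m + 2) ∉ f 1 := by
      rw [← List.count_eq_zero]
      omega
    have y1 := hy.y1
    unfold nn at y1
    rw [hWZ, MWK.pre_append k1, List.count_append] at y1
    have z1 : (f 1).count 1 + (f 1).count 1 ≤ Z.count 1 := by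
      rw [hZ, hP]
      unfold N0
      simp only [List.flatMap_cons, List.count_append, count_pw]
      have z2 : (f 1).count 1 ≤ n * (f 1).count 1 := Nat.le_mul_of_pos_left _ hn
      omega
    have n1 := hYPR n hn σ τ m hS false true f p q W hW hF 1 hy.yt (m + 1) (m + 1) (by omega) (by omega)
      hc1
    have n2 := hYPR n hn σ τ m hS false true f p q W hW hF 1 hy.yt (m + 2) (m + 2) (by omega) (by omega)
      hc2
    have y3 := hy.y3
    unfold nn at y3
    rw [hWZ, MWK.pre_append k2, MWK.pre_append k3, MWK.pre_append k4, MWK.pre_append_mem hc2,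
      List.count_append, List.count_append, List.count_append] at y3
    have l1 := List.count_eq_zero_of_not_mem n1
    have l2 := List.count_eq_zero_of_not_mem n2
    have l3 := MWK.count_pre_le (f (pin (m + 2))) 1 (pin (m + 2))
    omega

end Pool.Agent.MWLQ.H35
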